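import Mathlib

/-!
# A q-analogue of Rado's theorem for q-transversals
-/

set_option autoImplicit false

namespace Pool.Agent.Results.MP_ca0b96_co.QRado

open Module Submodule

/-- A q-matroid on the vector space `V` over `K`, given by its rank function. -/
structure QMatroid (K V : Type) [Field K] [AddCommGroup V] [Module K V] where
  /-- the rank function -/
  rk : Submodule K V → ℕ
  rk_le : ∀ A, rk A ≤ finrank K A
  mono : ∀ A B, A ≤ B → rk A ≤ rk B
  submod : ∀ A B, rk (A ⊔ B) + rk (A ⊓ B) ≤ rk A + rk B

namespace QMatroid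

variable {K V : Type} [Field K] [AddCommGroup V] [Module K V]

/-- Independent subspaces. -/
def Indep (M : QMatroid K V) (A : Submodule K V) : Prop := M.rk A = finrank K A

/-- Bases: the maximal independent subspaces. -/
def IsBasis (M : QMatroid K V) (B : Submodule K V) : Prop := Maximal M.Indep B

/-- The bar nullity: the least dimension of the intersection with a basis. -/
noncomputable def barNullity (M : QMatroid K V) (X : Submodule K V) : ℕ :=
  sInf {k | ∃ B, M.IsBasis B ∧ k = finrank K (B ⊓ X : Submodule K V)}

end QMatroid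

/-- The intersection of the members of the family indexed by `J` (the whole space if `J = ∅`). -/
def inter {K V : Type} [Field K] [AddCommGroup V] [Module K V] {n : ℕ}
    (X : Fin n → Submodule K V) (J : Finset (Fin n)) : Submodule K V := ⨅ j ∈ J, X j

/-- `T` is a q-transversal of the family `X`: it has dimension `n` and every vector basis of `T` can
be listed as `b₁, ..., bₙ` with `bᵢ ∉ Xᵢ`. -/
def IsQTransversal {K V : Type} [Field K] [AddCommGroup V] [Module K V] {n : ℕ}
    (X : Fin n → Submodule K V) (T : Submodule K V) : Prop :=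
  finrank K T = n ∧ ∀ b : Basis (Fin n) K T, ∃ σ : Equiv.Perm (Fin n), ∀ i, (b (σ i) : V) ∉ X i

section

variable {K V : Type} [Field K] [AddCommGroup V] [Module K V]

theorem exists_notMem_notMem {C D : Submodule K V} (hC : C ≠ ⊤) (hD : D ≠ ⊤) :
    ∃ b, b ∉ C ∧ b ∉ D := by
  obtain ⟨x, hx⟩ : ∃ x, x ∉ C := by
    by_contra h
    push Not at h
    exact hC (eq_top_iff'.2 h)
  obtain ⟨y, hy⟩ : ∃ y, y ∉ D := by
    by_contra h
    push Not at h
    exact hD (eq_top_iff'.2 h)
  by_cases h1 : x ∈ D
  · by_cases h2 : y ∈ C
    · refine ⟨x + y, fun h => hx ?_, fun h => hy ?_⟩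
      · simpa using C.sub_mem h h2
      · simpa using D.sub_mem h h1
    · exact ⟨y, h2, hy⟩
  · exact ⟨x, hx, h1⟩

variable [FiniteDimensional K V]

/-- The closure of a subspace. -/
theorem exists_closure (M : QMatroid K V) (A : Submodule K V) :
    ∃ C, M.rk C = M.rk A ∧ ∀ b, M.rk (A ⊔ span K {b}) = M.rk A → b ∈ C := by
  obtain ⟨C, ⟨hAC, hC⟩, hmax⟩ : ∃ C, (A ≤ C ∧ M.rk C = M.rk A) ∧
      ∀ D, (A ≤ D ∧ M.rk D = M.rk A) → finrank K D ≤ finrank K C := by
    by_contra hcon
    push Not at hcon
    have hstep : ∀ k : ℕ, ∃ C, (A ≤ C ∧ M.rk C = M.rk A) ∧ k ≤ finrank K C := by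
      intro k
      induction k with
      | zero => exact ⟨A, ⟨le_rfl, rfl⟩, Nat.zero_le _⟩
      | succ k ih =>
        obtain ⟨C, hC, hk⟩ := ih
        obtain ⟨D, hD, hlt⟩ := hcon C hC
        exact ⟨D, hD, by omega⟩
    obtain ⟨C, _, hC⟩ := hstep (finrank K V + 1)
    have := Submodule.finrank_le C
    omega
  refine ⟨C, hC, fun b hb => ?_⟩
  have h1 := M.submod C (A ⊔ span K {b})
  have h2 := M.mono A (C ⊓ (A ⊔ span K {b})) (le_inf hAC le_sup_left)
  have h3 := M.mono A (C ⊔ (A ⊔ span K {b})) (hAC.trans le_sup_left)
  have h4 : M.rk (C ⊔ (A ⊔ span K {b})) = M.rk A := by omega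
  have h5 := hmax _ ⟨hAC.trans le_sup_left, h4⟩
  have h6 : C = C ⊔ (A ⊔ span K {b}) := Submodule.eq_of_le_of_finrank_le le_sup_left h5
  rw [h6]
  exact mem_sup_right (mem_sup_right (mem_span_singleton_self b))

/-- One step of the greedy construction. -/
theorem exists_step (M : QMatroid K V) {T D : Submodule K V} (hT : M.Indep T)
    (hr : finrank K T < M.rk ⊤) (hD : D ≠ ⊤) :
    ∃ b, b ∉ D ∧ M.Indep (T ⊔ span K {b}) ∧ finrank K (T ⊔ span K {b} : Submodule K V) =
      finrank K T + 1 := by
  obtain ⟨C, hC, hCb⟩ := exists_closure M T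
  have hCtop : C ≠ ⊤ := by
    rintro rfl
    rw [QMatroid.Indep] at hT
    omega
  obtain ⟨b, hbC, hbD⟩ := exists_notMem_notMem hCtop hD
  have h1 : M.rk (T ⊔ span K {b}) ≠ M.rk T := fun h => hbC (hCb b h)
  have h2 := M.mono T (T ⊔ span K {b}) le_sup_left
  have h3 := M.rk_le (T ⊔ span K {b})
  have h4 : finrank K (T ⊔ span K {b} : Submodule K V) ≤ finrank K T + 1 := by
    have h5 := Submodule.finrank_add_le_finrank_add_finrank T (span K {b})
    have h6 : finrank K (span K {b} : Submodule K V) ≤ 1 := by
      have := finrank_span_le_card (R := K) ({b} : Set V)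
      simpa using this
    omega
  have h5 : M.rk T = finrank K T := hT
  refine ⟨b, hbD, ?_, ?_⟩
  · show M.rk _ = finrank K _
    omega
  · omega

/-- Independent subspaces of every dimension up to the rank, disjoint from a given subspace of
small dimension. -/
theorem exists_disjoint (M : QMatroid K V) (U : Submodule K V) (m : ℕ)
    (hU : finrank K U + m ≤ finrank K V) (hm : m ≤ M.rk ⊤) :
    ∃ T, M.Indep T ∧ finrank K T = m ∧ T ⊓ U = ⊥ := by
  induction m with
  | zero =>
    refine ⟨⊥, ?_, finrank_bot K V, bot_inf_eq U⟩
    have h := M.rk_le ⊥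
    rw [finrank_bot] at h
    show M.rk ⊥ = finrank K (⊥ : Submodule K V)
    rw [finrank_bot]
    omega
  | succ m ih =>
    obtain ⟨T, hT, hTm, hTU⟩ := ih (by omega) (by omega)
    have hD : T ⊔ U ≠ ⊤ := by
      intro h
      have h1 := Submodule.finrank_add_le_finrank_add_finrank T U
      rw [h, finrank_top] at h1
      omega
    obtain ⟨b, hb, h1, h2⟩ := exists_step M hT (by omega) hD
    refine ⟨T ⊔ span K {b}, h1, by omega, ?_⟩
    rw [eq_bot_iff]
    intro x hx
    obtain ⟨hxT, hxU⟩ := mem_inf.1 hx
    obtain ⟨t, ht, s, hs, rfl⟩ := mem_sup.1 hxT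
    obtain ⟨c, rfl⟩ := mem_span_singleton.1 hs
    by_cases hc : c = 0
    · rw [hc, zero_smul, add_zero] at hxU ⊢
      rw [← hTU]
      exact mem_inf.2 ⟨ht, hxU⟩
    · exfalso
      apply hb
      have h3 : c • b ∈ T ⊔ U := by
        have : c • b = (t + c • b) - t := by abel
        rw [this]
        exact sub_mem (mem_sup_right hxU) (mem_sup_left ht)
      have h4 := (T ⊔ U).smul_mem c⁻¹ h3
      rwa [smul_smul, inv_mul_cancel₀ hc, one_smul] at h4

theorem finrank_of_isBasis (M : QMatroid K V) {B : Submodule K V} (hB : M.IsBasis B) :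
    finrank K B = M.rk ⊤ := by
  have h1 : M.rk B = finrank K B := hB.prop
  have h2 := M.mono B ⊤ le_top
  by_contra hne
  have hlt : finrank K B < M.rk ⊤ := by omega
  have hBtop : B ≠ ⊤ := by
    rintro rfl
    omega
  obtain ⟨b, hb, h3, h4⟩ := exists_step M hB.prop hlt hBtop
  have h5 := hB.eq_of_ge h3 le_sup_left
  have h6 : finrank K (B ⊔ span K {b} : Submodule K V) = finrank K B := by rw [h5]
  omega

theorem exists_isBasis_ge (M : QMatroid K V) {T : Submodule K V} (hT : M.Indep T) :
    ∃ B, M.IsBasis B ∧ T ≤ B := by
  have key : ∀ m : ℕ, ∀ T : Submodule K V, M.Indep T → M.rk ⊤ - finrank K T = m →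
      ∃ B, M.Indep B ∧ T ≤ B ∧ finrank K B = M.rk ⊤ := by
    intro m
    induction m with
    | zero =>
      intro T hT h
      have h1 : M.rk T = finrank K T := hT
      have h2 := M.mono T ⊤ le_top
      exact ⟨T, hT, le_rfl, by omega⟩
    | succ m ih =>
      intro T hT h
      have hlt : finrank K T < M.rk ⊤ := by omega
      have hTtop : T ≠ ⊤ := by
        rintro rfl
        have h1 : M.rk ⊤ = finrank K (⊤ : Submodule K V) := hT
        omega
      obtain ⟨b, _, h3, h4⟩ := exists_step M hT hlt hTtop
      obtain ⟨B, hB, hle, hf⟩ := ih _ h3 (by omega)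
      exact ⟨B, hB, le_sup_left.trans hle, hf⟩
  obtain ⟨B, hB, hle, hf⟩ := key _ T hT rfl
  refine ⟨B, ⟨hB, fun C hC hBC => ?_⟩, hle⟩
  have h1 : M.rk C = finrank K C := hC
  have h2 := M.mono C ⊤ le_top
  exact (Submodule.eq_of_le_of_finrank_le hBC (by omega)).ge

omit [FiniteDimensional K V] in
theorem barNullity_le (M : QMatroid K V) {B : Submodule K V} (hB : M.IsBasis B)
    (X : Submodule K V) : M.barNullity X ≤ finrank K (B ⊓ X : Submodule K V) :=
  Nat.sInf_le ⟨B, hB, rfl⟩

theorem exists_barNullity (M : QMatroid K V) (X : Submodule K V) :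
    ∃ B, M.IsBasis B ∧ M.barNullity X = finrank K (B ⊓ X : Submodule K V) := by
  have hbot : M.Indep ⊥ := by
    have h := M.rk_le ⊥
    rw [finrank_bot] at h
    show M.rk ⊥ = finrank K (⊥ : Submodule K V)
    rw [finrank_bot]
    omega
  obtain ⟨B, hB, _⟩ := exists_isBasis_ge M hbot
  have h := Nat.sInf_mem (s := {k | ∃ B, M.IsBasis B ∧ k = finrank K (B ⊓ X : Submodule K V)})
    ⟨_, B, hB, rfl⟩
  exact h

theorem barNullity_top (M : QMatroid K V) : M.barNullity ⊤ = M.rk ⊤ := by
  obtain ⟨B, hB, h⟩ := exists_barNullity M ⊤
  rw [h, inf_top_eq, finrank_of_isBasis M hB]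

/-- The bar nullity of a subspace is determined by the dimensions: its lower bound. -/
theorem le_barNullity (M : QMatroid K V) (X : Submodule K V) :
    finrank K X + M.rk ⊤ ≤ M.barNullity X + finrank K V := by
  obtain ⟨B, hB, h⟩ := exists_barNullity M X
  have h1 := Submodule.finrank_sup_add_finrank_inf_eq B X
  have h2 := Submodule.finrank_le (B ⊔ X)
  have h3 := finrank_of_isBasis M hB
  omega

end

/-! ### Rado's theorem for subspaces -/

section Rado

variable {K W : Type} [Field K] [AddCommGroup W] [Module K W] [FiniteDimensional K W]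

theorem rado_aux {n : ℕ} : ∀ (s : ℕ) (Y : Fin n → Submodule K W),
    (∑ j, finrank K (Y j)) = s →
    (∀ J : Finset (Fin n), J.card ≤ finrank K (J.sup Y : Submodule K W)) →
    ∃ y : Fin n → W, (∀ j, y j ∈ Y j) ∧ LinearIndependent K y := by
  classical
  intro s
  induction s using Nat.strong_induction_on with
  | _ s ih =>
    intro Y hs hY
    by_cases hone : ∀ j, finrank K (Y j) ≤ 1
    · -- choose generators
      have hgen : ∀ j, ∃ y ∈ Y j, Y j = span K {y} := by
        intro j
        have h1 := hY {j}
        rw [Finset.card_singleton, Finset.sup_singleton] at h1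
        have h2 : finrank K (Y j) = 1 := le_antisymm (hone j) h1
        obtain ⟨y, hy, hne⟩ : ∃ y ∈ Y j, y ≠ 0 := by
          have : Y j ≠ ⊥ := by
            intro h
            rw [h, finrank_bot] at h2
            omega
          exact (Submodule.ne_bot_iff _).1 this
        refine ⟨y, hy, ?_⟩
        symm
        apply Submodule.eq_of_le_of_finrank_le
        · rw [span_le, Set.singleton_subset_iff]
          exact hy
        · rw [h2, finrank_span_singleton hne]
      choose y hy hspan using hgen
      refine ⟨y, hy, ?_⟩
      rw [linearIndependent_iff_card_le_finrank_span, Fintype.card_fin]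
      have h1 := hY Finset.univ
      rw [Finset.card_univ, Fintype.card_fin] at h1
      refine h1.trans (Submodule.finrank_mono ?_)
      rw [Finset.sup_le_iff]
      intro j _
      rw [hspan j]
      exact span_mono (Set.singleton_subset_iff.2 ⟨j, rfl⟩)
    · push Not at hone
      obtain ⟨j, hj⟩ := hone
      -- two proper subspaces spanning `Y j`
      obtain ⟨Z₁, Z₂, h1, h2, h12⟩ : ∃ Z₁ Z₂ : Submodule K W, Z₁ < Y j ∧ Z₂ < Y j ∧
          Z₁ ⊔ Z₂ = Y j := by
        obtain ⟨u, hu, hne⟩ : ∃ y ∈ Y j, y ≠ 0 := by
          have : Y j ≠ ⊥ := by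
            intro h
            rw [h, finrank_bot] at hj
            omega
          exact (Submodule.ne_bot_iff _).1 this
        have hule : span K {u} ≤ Y j := by
          rw [span_le, Set.singleton_subset_iff]
          exact hu
        obtain ⟨Z, hZ⟩ := Submodule.exists_isCompl (comap (Y j).subtype (span K {u}))
        have hmap : map (Y j).subtype (comap (Y j).subtype (span K {u})) = span K {u} := by
          rw [Submodule.map_comap_subtype, inf_eq_right]
          exact hule
        have hsup : span K {u} ⊔ map (Y j).subtype Z = Y j := by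
          rw [← hmap, ← Submodule.map_sup, hZ.sup_eq_top, Submodule.map_top, range_subtype]
        refine ⟨span K {u}, map (Y j).subtype Z, lt_of_le_of_ne hule ?_,
          lt_of_le_of_ne (Submodule.map_subtype_le _ _) ?_, hsup⟩
        · intro h
          rw [← h, finrank_span_singleton hne] at hj
          omega
        · intro h
          have h3 : Z = ⊤ := by
            rw [eq_top_iff']
            intro x
            have hx : (x : W) ∈ map (Y j).subtype Z := by
              rw [h]
              exact x.2
            obtain ⟨z, hz, hzx⟩ := hx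
            rwa [← Subtype.ext hzx]
          have h4 := hZ.inf_eq_bot
          rw [h3, inf_top_eq] at h4
          have h5 : (⟨u, hu⟩ : Y j) ∈ comap (Y j).subtype (span K {u}) :=
            mem_span_singleton_self u
          rw [h4, mem_bot] at h5
          exact hne (congrArg Subtype.val h5)
      -- one of the two replacements keeps the condition
      have hrep : ∀ Z : Submodule K W, Z < Y j → (∀ J : Finset (Fin n), j ∉ J →
          J.card + 1 ≤ finrank K (Z ⊔ J.sup Y : Submodule K W)) →
          ∃ y : Fin n → W, (∀ j, y j ∈ Y j) ∧ LinearIndependent K y := by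
        intro Z hZ hcond
        have hlt : ∑ i, finrank K (Function.update Y j Z i) < s := by
          rw [← hs]
          apply Finset.sum_lt_sum
          · intro i _
            by_cases hi : i = j
            · subst hi
              rw [Function.update_self]
              exact Submodule.finrank_mono hZ.le
            · rw [Function.update_of_ne hi]
          · refine ⟨j, Finset.mem_univ j, ?_⟩
            rw [Function.update_self]
            exact Submodule.finrank_lt_finrank_of_lt hZ
        obtain ⟨y, hy, hyi⟩ := ih _ hlt (Function.update Y j Z) rfl (by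
          intro J
          have hJ : ∀ J : Finset (Fin n), j ∉ J → J.sup (Function.update Y j Z) = J.sup Y := by
            intro J hJ
            refine Finset.sup_congr rfl fun i hi => ?_
            rw [Function.update_of_ne]
            rintro rfl
            exact hJ hi
          by_cases hjJ : j ∈ J
          · have h3 := hcond (J.erase j) (Finset.notMem_erase j J)
            rw [Finset.card_erase_add_one hjJ] at h3
            rw [← Finset.insert_erase hjJ, Finset.sup_insert, Function.update_self,
              hJ _ (Finset.notMem_erase j J), Finset.card_insert_of_notMem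
              (Finset.notMem_erase j J)]
            rwa [← Finset.card_erase_add_one hjJ] at h3
          · rw [hJ J hjJ]
            exact hY J)
        refine ⟨y, fun i => ?_, hyi⟩
        by_cases hi : i = j
        · subst hi
          have := hy i
          rw [Function.update_self] at this
          exact hZ.le this
        · have := hy i
          rwa [Function.update_of_ne hi] at this
      by_cases hc1 : ∀ J : Finset (Fin n), j ∉ J →
          J.card + 1 ≤ finrank K (Z₁ ⊔ J.sup Y : Submodule K W)
      · exact hrep Z₁ h1 hc1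
      · by_cases hc2 : ∀ J : Finset (Fin n), j ∉ J →
            J.card + 1 ≤ finrank K (Z₂ ⊔ J.sup Y : Submodule K W)
        · exact hrep Z₂ h2 hc2
        · exfalso
          push Not at hc1 hc2
          obtain ⟨J₁, hj1, hlt1⟩ := hc1
          obtain ⟨J₂, hj2, hlt2⟩ := hc2
          have e1 := Submodule.finrank_sup_add_finrank_inf_eq (Z₁ ⊔ J₁.sup Y) (Z₂ ⊔ J₂.sup Y)
          have e2 : finrank K ((insert j (J₁ ∪ J₂)).sup Y : Submodule K W) ≤
              finrank K ((Z₁ ⊔ J₁.sup Y) ⊔ (Z₂ ⊔ J₂.sup Y) : Submodule K W) := by
            apply Submodule.finrank_mono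
            rw [Finset.sup_insert, Finset.sup_union, ← h12]
            refine sup_le (sup_le ?_ ?_) (sup_le ?_ ?_)
            · exact le_sup_of_le_left le_sup_left
            · exact le_sup_of_le_right le_sup_left
            · exact le_sup_of_le_left le_sup_right
            · exact le_sup_of_le_right le_sup_right
          have e3 : finrank K ((J₁ ∩ J₂).sup Y : Submodule K W) ≤
              finrank K ((Z₁ ⊔ J₁.sup Y) ⊓ (Z₂ ⊔ J₂.sup Y) : Submodule K W) := by
            apply Submodule.finrank_mono
            refine le_inf ?_ ?_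
            · exact le_sup_of_le_right (Finset.sup_mono Finset.inter_subset_left)
            · exact le_sup_of_le_right (Finset.sup_mono Finset.inter_subset_right)
          have e4 := hY (insert j (J₁ ∪ J₂))
          have e5 := hY (J₁ ∩ J₂)
          rw [Finset.card_insert_of_notMem (by
            rw [Finset.mem_union]
            tauto)] at e4
          have e6 := Finset.card_union_add_card_inter J₁ J₂
          omega

end Rado

/-! ### The theorem -/

section Main

variable {K V : Type} [Field K] [AddCommGroup V] [Module K V] [FiniteDimensional K V]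

omit [FiniteDimensional K V] in
theorem inter_le {n : ℕ} (X : Fin n → Submodule K V) {J : Finset (Fin n)} {j : Fin n}
    (hj : j ∈ J) : inter X J ≤ X j := iInf₂_le j hj

omit [FiniteDimensional K V] in
theorem sup_annihilator {n : ℕ} (X : Fin n → Submodule K V) (J : Finset (Fin n)) :
    J.sup (fun j => (X j).dualAnnihilator) = (inter X J).dualAnnihilator := by
  classical
  induction J using Finset.induction_on with
  | empty => simp [inter]
  | insert j J _ ih =>
    rw [Finset.sup_insert, ih]
    have : inter X (insert j J) = X j ⊓ inter X J := by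
      rw [inter, Finset.iInf_insert]
      rfl
    rw [this, Subspace.dualAnnihilator_inf_eq]

theorem sufficiency (M : QMatroid K V) {n : ℕ} (X : Fin n → Submodule K V)
    (H : ∀ J : Finset (Fin n), M.barNullity (inter X J) + J.card ≤ M.barNullity ⊤) :
    ∃ T, IsQTransversal X T ∧ M.Indep T := by
  classical
  rw [barNullity_top] at H
  have hn : n ≤ M.rk ⊤ := by
    have := H Finset.univ
    rw [Finset.card_univ, Fintype.card_fin] at this
    omega
  obtain ⟨y, hy, hyi⟩ := rado_aux _ (fun j => (X j).dualAnnihilator) rfl (by
    intro J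
    rw [sup_annihilator]
    have h1 := Subspace.finrank_add_finrank_dualAnnihilator_eq (inter X J)
    have h2 := le_barNullity M (inter X J)
    have h3 := H J
    omega)
  set K0 := (span K (Set.range y)).dualCoannihilator with hK0
  have hK0f : finrank K K0 + n = finrank K V := by
    have h1 : finrank K (span K (Set.range y)) + finrank K K0 = finrank K V :=
      Subspace.finrank_add_finrank_dualCoannihilator_eq (span K (Set.range y))
    rw [finrank_span_eq_card hyi, Fintype.card_fin] at h1
    omega
  obtain ⟨T, hT, hTn, hTK⟩ := exists_disjoint M K0 n hK0f.le hn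
  refine ⟨T, ⟨hTn, fun b => ?_⟩, hT⟩
  set A : Matrix (Fin n) (Fin n) K := Matrix.of fun i j => y j (b i : V) with hA
  have hdet : A.det ≠ 0 := by
    intro h
    obtain ⟨v, hv, hvA⟩ := Matrix.exists_vecMul_eq_zero_iff.2 h
    apply hv
    have hx : ((∑ i, v i • b i : T) : V) ∈ K0 := by
      rw [hK0, mem_dualCoannihilator]
      intro φ hφ
      induction hφ using span_induction with
      | mem φ h =>
        obtain ⟨j, rfl⟩ := h
        have h1 := congrFun hvA j
        rw [Submodule.coe_sum, map_sum]
        simpa [Matrix.vecMul, dotProduct, hA] using h1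
      | zero => rfl
      | add φ ψ _ _ h1 h2 => rw [LinearMap.add_apply, h1, h2, add_zero]
      | smul c φ _ h1 => rw [LinearMap.smul_apply, h1, smul_zero]
    have hx0 : (∑ i, v i • b i : T) = 0 := by
      apply Subtype.ext
      have : ((∑ i, v i • b i : T) : V) ∈ T ⊓ K0 := mem_inf.2 ⟨Subtype.mem _, hx⟩
      rw [hTK, mem_bot] at this
      exact this
    funext i
    exact (Fintype.linearIndependent_iff.1 b.linearIndependent v hx0) i
  rw [Matrix.det_apply] at hdet
  obtain ⟨σ, _, hσ⟩ := Finset.exists_ne_zero_of_sum_ne_zero hdet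
  refine ⟨σ, fun i hi => hσ ?_⟩
  have h1 : A (σ i) i = 0 := by
    rw [hA, Matrix.of_apply]
    exact (mem_dualAnnihilator _).1 (hy i) _ hi
  have h2 : ∏ i, A (σ i) i = 0 := Finset.prod_eq_zero (Finset.mem_univ i) h1
  rw [h2, smul_zero]

theorem transversal_bound {n : ℕ} (X : Fin n → Submodule K V) {T : Submodule K V}
    (hT : IsQTransversal X T) (J : Finset (Fin n)) :
    finrank K (T ⊓ inter X J : Submodule K V) + J.card ≤ n := by
  classical
  obtain ⟨hTn, hTb⟩ := hT
  set S : Submodule K T := comap T.subtype (inter X J) with hS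
  have hSf : finrank K (T ⊓ inter X J : Submodule K V) = finrank K S := by
    have h1 : map T.subtype S = T ⊓ inter X J := Submodule.map_comap_subtype _ _
    rw [← h1]
    exact (Submodule.equivSubtypeMap T S).finrank_eq.symm
  obtain ⟨S', hS'⟩ := Submodule.exists_isCompl S
  have hsum : finrank K S + finrank K S' = n := by
    rw [← hTn]
    exact Submodule.finrank_add_eq_of_isCompl hS'
  let b1 := finBasis K S
  let b2 := finBasis K S'
  let e : Fin (finrank K S) ⊕ Fin (finrank K S') ≃ Fin n :=
    finSumFinEquiv.trans (finCongr hsum)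
  let b : Basis (Fin n) K T :=
    ((b1.prod b2).map (Submodule.prodEquivOfIsCompl S S' hS')).reindex e
  have hb : ∀ i : Fin (finrank K S), b (e (Sum.inl i)) ∈ S := by
    intro i
    have : b (e (Sum.inl i)) = b1 i := by
      simp [b]
    rw [this]
    exact (b1 i).2
  obtain ⟨σ, hσ⟩ := hTb b
  -- the members of `J` are listed in the second part
  have hmem : ∀ j ∈ J, ∃ k : Fin (finrank K S'), σ j = e (Sum.inr k) := by
    intro j hj
    obtain ⟨x, hx⟩ := e.surjective (σ j)
    rcases x with i | k
    · exfalso
      apply hσ j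
      rw [← hx]
      exact inter_le X hj (hb i)
    · exact ⟨k, hx.symm⟩
  have hcard : J.card ≤ finrank K S' := by
    have h1 : J.image σ ⊆ Finset.univ.image (fun k => e (Sum.inr k)) := by
      intro x hx
      obtain ⟨j, hj, rfl⟩ := Finset.mem_image.1 hx
      obtain ⟨k, hk⟩ := hmem j hj
      exact Finset.mem_image.2 ⟨k, Finset.mem_univ _, hk.symm⟩
    have h2 := (Finset.card_le_card h1).trans Finset.card_image_le
    rwa [Finset.card_image_of_injective _ σ.injective, Finset.card_univ, Fintype.card_fin] at h2
  rw [hSf]
  omega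

theorem necessity (M : QMatroid K V) {n : ℕ} (X : Fin n → Submodule K V) {T : Submodule K V}
    (hT : IsQTransversal X T) (hTM : M.Indep T) (J : Finset (Fin n)) :
    M.barNullity (inter X J) + J.card ≤ M.barNullity ⊤ := by
  rw [barNullity_top]
  obtain ⟨B, hB, hTB⟩ := exists_isBasis_ge M hTM
  have h1 := barNullity_le M hB (inter X J)
  have h2 := transversal_bound X hT J
  have h3 := Submodule.finrank_sup_add_finrank_inf_eq T (B ⊓ inter X J)
  have h4 : finrank K (T ⊔ B ⊓ inter X J : Submodule K V) ≤ finrank K B :=
    Submodule.finrank_mono (sup_le hTB inf_le_left)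
  have h5 : T ⊓ (B ⊓ inter X J) = T ⊓ inter X J := by
    rw [← inf_assoc, inf_eq_left.2 hTB]
  rw [h5] at h3
  have h6 := finrank_of_isBasis M hB
  have h7 := hT.1
  omega

/-- The q-analogue of Rado's theorem: a family of subspaces has a q-transversal that is independent
in the q-matroid if and only if the bar nullity condition holds. -/
theorem result (K V : Type) [Field K] [AddCommGroup V] [Module K V]
    [FiniteDimensional K V] (M : QMatroid K V) (n : ℕ) (X : Fin n → Submodule K V) :
    (∃ T, IsQTransversal X T ∧ M.Indep T) ↔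
      ∀ J : Finset (Fin n), M.barNullity (inter X J) + J.card ≤ M.barNullity ⊤ :=
  ⟨fun ⟨_, h1, h2⟩ J => necessity M X h1 h2 J, sufficiency M X⟩

end Main

end Pool.Agent.Results.MP_ca0b96_co.QRado
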